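import Mathlib

namespace Pool.Agent.Results.MP_a0a898_co.TwoSeven

/-- dominating set -/
def Dom {V : Type} (G : SimpleGraph V) (D : Set V) : Prop := ∀ v, v ∈ D ∨ ∃ u ∈ D, G.Adj u v

/-- a move: allowed while the picked set is not dominating -/
def Move {V : Type} (G : SimpleGraph V) (D D' : Set V) : Prop :=
  ¬ Dom G D ∧ ∃ v, v ∉ D ∧ D' = insert v D

/-- the player to move can force making the last pick -/
inductive Wins {V : Type} (G : SimpleGraph V) : Set V → Prop
  | mk (D D' : Set V) : Move G D D' → (∀ D'', Move G D' D'' → Wins G D'') → Wins G D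

theorem not_both {V : Type} (G : SimpleGraph V) (c : Set V) (h : Wins G c) :
    ¬ ∀ c', Move G c c' → Wins G c' := by
  induction h with
  | mk c c' hm _ ih =>
    intro hall
    cases hall c' hm with
    | mk _ c'' hm' hr => exact ih c'' hm' hr

abbrev Gr : SimpleGraph (Fin 2 × Fin 7) := SimpleGraph.pathGraph 2 □ SimpleGraph.pathGraph 7

def idx (v : Fin 2 × Fin 7) : ℕ := 7 * v.1 + v.2

def nb : List (List ℕ) := [[0, 1, 7], [0, 1, 2, 8], [1, 2, 3, 9], [2, 3, 4, 10], [3, 4, 5, 11], [4, 5, 6, 12], [5, 6, 13], [0, 7, 8], [1, 7, 8, 9], [2, 8, 9, 10], [3, 9, 10, 11], [4, 10, 11, 12], [5, 11, 12, 13], [6, 12, 13]]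

def domB (S : ℕ) : Bool := nb.all fun l => l.any fun i => S.testBit i

def dec (S : ℕ) : Set (Fin 2 × Fin 7) := {v | S.testBit (idx v) = true}

theorem F1 : ∀ v u : Fin 2 × Fin 7, (u = v ∨ Gr.Adj u v) ↔ idx u ∈ nb.getD (idx v) [] := by
  simp only [SimpleGraph.boxProd_adj, SimpleGraph.pathGraph_adj]
  decide
theorem F2 : ∀ i < 14, ∃ u, idx u = i := by decide
theorem F3 : ∀ l ∈ nb, (∀ i ∈ l, i < 14) ∧ ∃ v, nb.getD (idx v) [] = l := by decide
theorem F4 : ∀ v, nb.getD (idx v) [] ∈ nb ∧ idx v < 14 := by decide
theorem F5 : ∀ u v, idx u = idx v → u = v := by decide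

theorem dom_iff (S : ℕ) : Dom Gr (dec S) ↔ domB S = true := by
  simp only [domB, List.all_eq_true, List.any_eq_true]
  constructor
  · intro h l hl
    obtain ⟨-, v, rfl⟩ := F3 l hl
    rcases h v with h1 | ⟨u, h1, h2⟩
    · exact ⟨_, (F1 v v).1 (Or.inl rfl), h1⟩
    · exact ⟨_, (F1 v u).1 (Or.inr h2), h1⟩
  · intro h v
    obtain ⟨i, hi, hb⟩ := h _ (F4 v).1
    obtain ⟨u, rfl⟩ := F2 i ((F3 _ (F4 v).1).1 i hi)
    rcases (F1 v u).2 hi with rfl | h2
    · exact Or.inl hb
    · exact Or.inr ⟨u, hb, h2⟩

theorem dec_put (S : ℕ) (v : Fin 2 × Fin 7) : dec (S ||| 2 ^ idx v) = insert v (dec S) := by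
  ext u
  simp only [dec, Set.mem_ofPred_eq, Nat.testBit_or, Nat.testBit_two_pow, Bool.or_eq_true,
    decide_eq_true_eq, Set.mem_insert_iff]
  constructor
  · rintro (h | h)
    · exact Or.inr h
    · exact Or.inl (F5 _ _ h).symm
  · rintro (rfl | h)
    · exact Or.inr rfl
    · exact Or.inl h

def force {β : Type} (n : ℕ) (k : ℕ → β) : β := Nat.casesOn n (k 0) (fun m => k (Nat.succ m))

theorem force_eq {β : Type} (n : ℕ) (k : ℕ → β) : force n k = k n := by cases n <;> rfl

def loop (g : ℕ → ℕ → ℕ) : ℕ → ℕ → ℕ
  | 0, s => s
  | r + 1, s => force (loop g r s) fun s' => bif Nat.beq s' 0 then 0 else g r s'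

theorem loop_spec (g : ℕ → ℕ → ℕ) (s : ℕ) : ∀ n, loop g n s ≠ 0 → ∀ r < n, ∃ s', g r s' ≠ 0 := by
  intro n
  induction n with
  | zero => intro _ r h; omega
  | succ n ih =>
    intro h r hr
    simp only [loop, force_eq, Bool.cond_eq_ite, Nat.beq_eq] at h
    split_ifs at h with h0
    · exact absurd rfl h
    · rcases Nat.lt_succ_iff_lt_or_eq.1 hr with h1 | rfl
      · exact ih h0 r h1
      · exact ⟨_, h⟩

def chk : ℕ → ℕ → ℕ → ℕ
  | 0, _, _ => 0
  | f + 1, S, s => force (s % 16) fun i => force (S ||| 2 ^ i) fun T =>
      bif Nat.ble i 13 && (!S.testBit i && !domB S) then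
        bif domB T then s / 16 else
          loop (fun r s' => bif T.testBit r then s' else force (T ||| 2 ^ r) fun U => chk f U s')
            14 (s / 16)
      else 0

theorem chk_spec : ∀ f S s, chk f S s ≠ 0 → Wins Gr (dec S) := by
  intro f
  induction f with
  | zero => intro S s h; exact absurd rfl h
  | succ f ih =>
    intro S s h
    simp only [chk, force_eq, Bool.cond_eq_ite, Bool.and_eq_true, Nat.ble_eq,
      Bool.not_eq_true'] at h
    by_cases h0 : s % 16 ≤ 13 ∧ S.testBit (s % 16) = false ∧ domB S = false
    swap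
    · rw [if_neg h0] at h; exact absurd rfl h
    rw [if_pos h0] at h
    obtain ⟨hi, hb, hd⟩ := h0
    obtain ⟨v, hv⟩ := F2 (s % 16) (by omega)
    rw [← hv] at h hb
    refine Wins.mk _ (dec (S ||| 2 ^ idx v)) ⟨by rw [dom_iff, hd]; simp, v, by simp [dec, hb],
      dec_put S v⟩ ?_
    rintro D ⟨hnd, w, hw, rfl⟩
    rw [dom_iff] at hnd
    rw [if_neg hnd] at h
    obtain ⟨s', hs'⟩ := loop_spec _ _ _ h (idx w) (F4 w).2
    have hw' : ¬ (S ||| 2 ^ idx v).testBit (idx w) = true := hw
    rw [if_neg hw'] at hs'
    rw [← dec_put]
    exact ih _ _ hs'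

theorem hw_of (s : ℕ) (h : Nat.beq (chk 8 0 s) 0 = false) : Wins Gr ∅ := by
  have h1 := chk_spec 8 0 s (Nat.ne_of_beq_eq_false h)
  have e : dec 0 = ∅ := by ext v; simp [dec]
  rw [e] at h1
  exact h1

def strat : ℕ := 0x10003300033035000330360328003900033035000330003303c03200033036000330003303c032800033036000330003303c035940003300033034000330360320220002900220002d228802600220002b0220002d022000263a00033034000330003303d03200033036000330003303d032800033036000330003303d034a50220002900220002c22880250220002900220002d228802500220002c0220002d02200025220220002c0220002d02200029880260330003900330003c33000320330003900330003d3300032000055000055052000550545355000000055053550000550595200000055054550000550595200000055054550000550595356003300036330330003a00032004400043440000440004a42004400042440000440004b434400044000440420000440454300044000440430000440464200004400044042000044046450004400044043000044046454d33555355533523353555335706dd336663633666360336663625b336663366636236336663670d3366633666360363366636753366633666362363366636754aa226662226662606226662643642226266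6862262666b46cc0a366ca33666360c336663642a336663366636036336663682a2226662646cca2266626bc0a366c33666364a33666368c0a366c33666364a33666368c250220002900220002c22880250220002900220002d228802500220002c0220002d02200025220220002c0220002d022000298802ba32262262666722626669266606422262666762262666b46cc0a366ca33666360c336663642a336663366636236336663670ca366c33666364a33666367c0a366c33666364a33666367c280003300033035000330360328003900033035000330003303c03200033036000330003303c032800033036000330003303c0359d82255522575552555225b22502255522576662266626522266626760000000550525500005505956000000550525500005505a56d2222666260666262266626b5000000550590005505a5505222226662676662266626b260000000550590005505a5505622226662676662266626b265400000044045440004404904300033035000330003303d0340000000550545500005505953000000550535500005505a54bb000440490000004404d44043000000550590005505a55053000000550590005505a55054b6aa2266622666264222666267636422262666862262666b46cc7a366c33666364a33666367c2a366c33666364a33666368c2a33666336663673366636836222226662676662266626b26433666336663673366636836451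

theorem chk0 : Nat.beq (chk 8 0 strat) 0 = false := by decide +kernel

theorem result :
    Wins (SimpleGraph.pathGraph 2 □ SimpleGraph.pathGraph 7) ∅ ∧
      ¬ ∀ D, Move (SimpleGraph.pathGraph 2 □ SimpleGraph.pathGraph 7) ∅ D →
        Wins (SimpleGraph.pathGraph 2 □ SimpleGraph.pathGraph 7) D :=
  ⟨hw_of strat chk0, not_both _ _ (hw_of strat chk0)⟩

end Pool.Agent.Results.MP_a0a898_co.TwoSeven
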